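import Mathlib
import Pool.Agent.H36E13726.Chain

/-!
# MP_e13726_nt: the lower bound for the number of primes among `S_1, …, S_n` fails at `n = 4001674`

`S_n` is the sum of the first `2n` primes, `π_n` counts the primes among `S_1, …, S_n`, and
`x_0(n)` is the solution `x > 1` of `x log x = R_n ^ 2`, `R_n = 2 n^{5/2} log n / S_n`.
We show `π_n < ⌊x_0(n)⌋` for `n = 4001674 ≥ 4 * 10^6`.

The values `S_n = 550005415702529` and `π_n ≤ 252119` come from a sieve of Eratosthenes up to
`141713792` and compositeness certificates, both evaluated by the kernel in the files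
`Pool/Agent/H36E13726/B00.lean`, …, `B33.lean`.
-/

namespace Pool.Agent.Results.MP_e13726_nt.FailsAt4001674

open Finset

/-- The `i`-th prime, with `p 1 = 2`. -/
noncomputable def p (i : ℕ) : ℕ := Nat.nth Nat.Prime (i - 1)

/-- The sum of the `2n` smallest primes. -/
noncomputable def S (n : ℕ) : ℕ := ∑ i ∈ Icc 1 (2 * n), p i

/-- How many of the integers `S 1, …, S n` are prime. -/
noncomputable def piN (n : ℕ) : ℕ := ((Icc 1 n).filter (fun k => (S k).Prime)).card

/-- `R_n = 2 n^{5/2} log n / S_n`. -/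
noncomputable def R (n : ℕ) : ℝ := 2 * (n : ℝ) ^ (5 / 2 : ℝ) * Real.log n / S n

/-- `x` is the number `x_0(n)`. -/
def IsX0 (n : ℕ) (x : ℝ) : Prop := 1 < x ∧ x * Real.log x = R n ^ 2

theorem sum_p (m : ℕ) : ∑ i ∈ Icc 1 m, p i = H36E13726.PS m := by
  induction m with
  | zero => simp [H36E13726.PS]
  | succ m ih =>
    rw [Finset.sum_Icc_succ_top (by omega), ih, H36E13726.PS_succ]
    rfl

theorem S_eq (n : ℕ) : S n = H36E13726.PS (2 * n) := sum_p _

theorem piN_eq (n : ℕ) : piN n = H36E13726.cntA n := by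
  unfold piN H36E13726.cntA
  simp only [S_eq]

theorem values : S 4001674 = 550005415702529 ∧ piN 4001674 ≤ 252119 := by
  obtain ⟨⟨hb, hS, c, hC, h1, h2⟩, _⟩ := H36E13726.iEnd
  set N := Nat.count Nat.Prime (2 * 70856896) with hN
  have hm : N / 2 = 4001674 ∧ c = 252119 := by omega
  have hpar : N % 2 = 0 := by
    simp only [Bool.false_eq_true, false_iff] at hb
    omega
  have hN2 : N = 2 * 4001674 := by omega
  rw [S_eq, piN_eq]
  refine ⟨?_, ?_⟩
  · rw [← hN2]; exact hS.symm
  · rw [hm.1, hm.2] at h1; exact h1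

theorem mul_log_lt {x y : ℝ} (hx : 1 < x) (hxy : x < y) : x * Real.log x < y * Real.log y := by
  have h1 : 0 < Real.log x := Real.log_pos hx
  have h2 : Real.log x < Real.log y := Real.log_lt_log (by linarith) hxy
  nlinarith

theorem exists_unique_x {r : ℝ} (hr : 0 < r) : ∃! x : ℝ, 1 < x ∧ x * Real.log x = r := by
  have hB : r ≤ (r + 3) * Real.log (r + 3) := by
    have h1 : 1 ≤ Real.log (r + 3) := by
      rw [Real.le_log_iff_exp_le (by linarith)]
      have := Real.exp_one_lt_d9
      linarith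
    nlinarith
  have hcont : ContinuousOn (fun x : ℝ => x * Real.log x) (Set.Icc 1 (r + 3)) :=
    Real.continuous_mul_log.continuousOn
  have hiv := intermediate_value_Icc (by linarith : (1 : ℝ) ≤ r + 3) hcont
  obtain ⟨x, hx, hfx⟩ := hiv ⟨by simp; linarith, hB⟩
  refine ⟨x, ⟨?_, hfx⟩, ?_⟩
  · rcases eq_or_lt_of_le hx.1 with h | h
    · rw [← h] at hfx; simp at hfx; linarith
    · exact h
  · rintro y ⟨hy1, hy2⟩
    have hx1 : 1 < x := by
      rcases eq_or_lt_of_le hx.1 with h | h
      · rw [← h] at hfx; simp at hfx; linarith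
      · exact h
    have hfx' : x * Real.log x = r := hfx
    rcases lt_trichotomy y x with h | h | h
    · have := mul_log_lt hy1 h; linarith
    · exact h
    · have := mul_log_lt hx1 h; linarith

theorem log_n_lower : (15.2022232 : ℝ) ≤ Real.log 4001674 := by
  have h2 := Real.log_two_gt_d9
  have h := Real.log_div_le_sum_range_add (x := 192630 / 8195978) (by norm_num) (by norm_num) 2
  have e : ((1 : ℝ) + 192630 / 8195978) / (1 - 192630 / 8195978) = 2 ^ 22 / 4001674 := by norm_num
  rw [e, Real.log_div (by norm_num) (by norm_num), Real.log_pow] at h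
  norm_num [Finset.sum_range_succ] at h
  norm_num at h2
  linarith

theorem log_x_upper : Real.log 252120 ≤ (12.4376606 : ℝ) := by
  have h2 := Real.log_two_lt_d9
  have h := Real.sum_range_le_log_div (x := 10024 / 514264) (by norm_num) (by norm_num) 2
  have e : ((1 : ℝ) + 10024 / 514264) / (1 - 10024 / 514264) = 2 ^ 18 / 252120 := by norm_num
  rw [e, Real.log_div (by norm_num) (by norm_num), Real.log_pow] at h
  norm_num [Finset.sum_range_succ] at h
  norm_num at h2
  linarith

theorem R_sq : R 4001674 ^ 2 =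
    4 * 4001674 ^ 5 * Real.log 4001674 ^ 2 / 550005415702529 ^ 2 := by
  unfold R
  rw [values.1]
  have e : (((4001674 : ℕ) : ℝ) ^ (5 / 2 : ℝ)) ^ 2 = 4001674 ^ 5 := by
    rw [← Real.rpow_natCast, ← Real.rpow_mul (by positivity)]
    norm_num
  rw [div_pow, mul_pow, mul_pow, e]
  push_cast
  norm_num

theorem bound : 252120 * Real.log 252120 ≤ R 4001674 ^ 2 := by
  rw [R_sq]
  have h1 := log_n_lower
  have h2 := log_x_upper
  have h3 : (15.2022232 : ℝ) ^ 2 ≤ Real.log 4001674 ^ 2 := by
    apply pow_le_pow_left₀ (by norm_num) h1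
  rw [le_div_iff₀ (by norm_num)]
  calc 252120 * Real.log 252120 * 550005415702529 ^ 2
      ≤ 252120 * (12.4376606 : ℝ) * 550005415702529 ^ 2 := by gcongr
    _ ≤ 4 * 4001674 ^ 5 * (15.2022232 : ℝ) ^ 2 := by norm_num
    _ ≤ 4 * 4001674 ^ 5 * Real.log 4001674 ^ 2 := by gcongr

theorem lt_floor {x : ℝ} (hx : IsX0 4001674 x) : (piN 4001674 : ℤ) < ⌊x⌋ := by
  obtain ⟨h1, h2⟩ := hx
  have hx' : (252120 : ℝ) ≤ x := by
    by_contra hc
    have := mul_log_lt h1 (not_le.mp hc)
    have := bound
    linarith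
  have h3 : (252120 : ℤ) ≤ ⌊x⌋ := by
    rw [Int.le_floor]
    exact_mod_cast hx'
  have h4 := values.2
  omega

/-- For `n = 4001674` the number `x_0(n)` exists and is unique, and fewer than `⌊x_0(n)⌋` of the
numbers `S_1, …, S_n` are prime. In particular the inequality of the problem is false. -/
theorem result :
    (∃! x : ℝ, IsX0 4001674 x) ∧
    (∀ x : ℝ, IsX0 4001674 x → (piN 4001674 : ℤ) < ⌊x⌋) ∧
    ¬ (∀ n : ℕ, 4 * 10 ^ 6 ≤ n → ∀ x : ℝ, IsX0 n x → ⌊x⌋ ≤ (piN n : ℤ)) := by
  have hR : 0 < R 4001674 ^ 2 := by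
    have h := bound
    have : 0 < Real.log 252120 := Real.log_pos (by norm_num)
    linarith
  have hex : ∃! x : ℝ, IsX0 4001674 x := exists_unique_x hR
  refine ⟨hex, fun x hx => lt_floor hx, fun h => ?_⟩
  obtain ⟨x, hx, _⟩ := hex
  have h1 := h 4001674 (by norm_num) x hx
  have h2 := lt_floor hx
  omega

end Pool.Agent.Results.MP_e13726_nt.FailsAt4001674
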